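import Mathlib

/-!
Number theory: the prime factors of `(p ^ n - 1) / (p - 1)`.
-/

namespace H68ICU

open ArithmeticFunction

/-- `(p ^ n - 1) / (p - 1)` -/
def NN (p n : ℕ) : ℕ := ∑ i ∈ Finset.range n, p ^ i

theorem NN_mul (p n : ℕ) (hp : 1 ≤ p) : NN p n * (p - 1) + 1 = p ^ n := by
  obtain ⟨x, rfl⟩ : ∃ x, p = x + 1 := ⟨p - 1, by omega⟩
  exact geom_sum_mul_add x n

theorem NN_pos (p n : ℕ) (hp : 1 ≤ p) (hn : 2 ≤ n) : 1 < NN p n := by
  unfold NN
  obtain ⟨m, rfl⟩ : ∃ m, n = m + 2 := ⟨n - 2, by omega⟩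
  rw [Finset.sum_range_succ', Finset.sum_range_succ']
  have : 0 < p ^ (0 + 1) := Nat.pow_pos hp
  have h0 : p ^ 0 = 1 := pow_zero p
  omega

theorem prime_factor_gt {p n r : ℕ} (hp : p.Prime) (hn : n.Prime) (hpn : p < n) (hr : r.Prime)
    (hd : r ∣ NN p n) : n < r := by
  haveI : Fact r.Prime := ⟨hr⟩
  have h1 : ((p : ZMod r)) ^ n = 1 := by
    have h2 : ((NN p n * (p - 1) + 1 : ℕ) : ZMod r) = ((p ^ n : ℕ) : ZMod r) := by
      rw [NN_mul p n hp.one_lt.le]
    rw [Nat.cast_add, Nat.cast_mul, (ZMod.natCast_eq_zero_iff _ _).2 hd, zero_mul, zero_add,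
      Nat.cast_one, Nat.cast_pow] at h2
    exact h2.symm
  rcases (Nat.dvd_prime hn).1 (orderOf_dvd_of_pow_eq_one h1) with h3 | h3
  · rw [orderOf_eq_one_iff] at h3
    have h4 : ((NN p n : ℕ) : ZMod r) = (n : ZMod r) := by
      unfold NN
      rw [Nat.cast_sum]
      simp_rw [Nat.cast_pow, h3, one_pow]
      rw [Finset.sum_const, Finset.card_range, nsmul_eq_mul, mul_one]
    rw [(ZMod.natCast_eq_zero_iff _ _).2 hd, eq_comm, ZMod.natCast_eq_zero_iff] at h4
    have h5 : r = n := (Nat.prime_dvd_prime_iff_eq hr hn).1 h4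
    subst h5
    have h6 : ((p : ℕ) : ZMod r) = ((1 : ℕ) : ZMod r) := by rw [h3, Nat.cast_one]
    rw [ZMod.natCast_eq_natCast_iff', Nat.mod_eq_of_lt hpn, Nat.mod_eq_of_lt hr.one_lt] at h6
    have := hp.one_lt
    omega
  · have hx : (p : ZMod r) ≠ 0 := by
      intro h0
      rw [h0, zero_pow hn.ne_zero] at h1
      exact zero_ne_one h1
    have h4 := orderOf_dvd_of_pow_eq_one (ZMod.pow_card_sub_one_eq_one hx)
    rw [h3] at h4
    have h5 := Nat.le_of_dvd (by have := hr.one_lt; omega) h4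
    have := hr.one_lt
    omega

theorem cop_of_lt {p n M : ℕ} (hp : p.Prime) (hn : n.Prime) (hpn : p < n) (hM : 0 < M)
    (hMn : M < n) : M.Coprime (NN p n) := by
  refine Nat.coprime_of_dvd fun k hk h1 h2 => ?_
  have h3 := prime_factor_gt hp hn hpn hk h2
  have h4 := Nat.le_of_dvd hM h1
  omega

theorem cardFactors_NN {p n : ℕ} (hp : p.Prime) (hn : n.Prime) (hpn : p ^ 2 ≤ n) :
    2 * cardFactors (NN p n) < n := by
  have hp1 := hp.one_lt
  have hpn' : p < n := by nlinarith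
  have hpos := NN_pos p n hp1.le hn.two_le
  have h1 : n ^ (NN p n).primeFactorsList.length ≤ (NN p n).primeFactorsList.prod := by
    refine List.pow_card_le_prod _ _ fun x hx => ?_
    exact (prime_factor_gt hp hn hpn' (Nat.prime_of_mem_primeFactorsList hx)
      (Nat.dvd_of_mem_primeFactorsList hx)).le
  rw [Nat.prod_primeFactorsList (by omega)] at h1
  rw [cardFactors_apply]
  have h2 : NN p n < p ^ n := by
    rw [← NN_mul p n hp1.le]
    have : NN p n * 1 ≤ NN p n * (p - 1) := Nat.mul_le_mul_left _ (by omega)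
    omega
  have h3 : (p ^ 2) ^ (NN p n).primeFactorsList.length < p ^ n :=
    lt_of_le_of_lt (le_trans (Nat.pow_le_pow_left hpn _) h1) h2
  rw [← pow_mul] at h3
  exact (Nat.pow_lt_pow_iff_right hp1).1 h3

theorem cardFactors_lt {a b : ℕ} (hd : a ∣ b) (hb : b ≠ 0) (hlt : a < b) :
    cardFactors a < cardFactors b := by
  obtain ⟨c, rfl⟩ := hd
  have ha : a ≠ 0 := fun h => hb (by rw [h, zero_mul])
  have hc : c ≠ 0 := fun h => hb (by rw [h, mul_zero])
  rw [cardFactors_mul ha hc]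
  have h1 : 1 < c := by
    by_contra h
    have : c = 1 := by omega
    rw [this, mul_one] at hlt
    exact lt_irrefl _ hlt
  have := cardFactors_pos_iff_one_lt.2 h1
  omega

theorem cardFactors_le {a b : ℕ} (hd : a ∣ b) (hb : b ≠ 0) :
    cardFactors a ≤ cardFactors b := by
  obtain ⟨c, rfl⟩ := hd
  have ha : a ≠ 0 := fun h => hb (by rw [h, zero_mul])
  have hc : c ≠ 0 := fun h => hb (by rw [h, mul_zero])
  rw [cardFactors_mul ha hc]
  omega

end H68ICU
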