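import Pool.Agent.H68.ICU.Res
import Pool.Agent.H68.ICU.Num

/-!
The groups `K ⋊ C`, where `K` is the field with `p ^ n` elements, `n` prime, and `C` is the subgroup
of order `(p ^ n - 1) / (p - 1)` of its multiplicative group.
-/

open H68IC H68ICG H68ICP

set_option linter.unusedSectionVars false

namespace H68ICU

section Field

variable {K : Type} [Field K] [Finite K] {p : ℕ} [hp : Fact p.Prime] [Algebra (ZMod p) K]
variable {C : Subgroup Kˣ} {N : ℕ} (hC : Nat.card C = N) (hN : Nat.card Kˣ = (p - 1) * N)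
  (hcop : (p - 1).Coprime N)

theorem exists_ne (T : AddSubgroup K) (hT : T ≠ ⊥) : ∃ w ∈ T, w ≠ 0 := by
  by_contra h
  push Not at h
  apply hT
  rw [eq_bot_iff]
  intro x hx
  exact h x hx

theorem exists_functional (W : AddSubgroup K) (hW : W ≠ ⊤) :
    ∃ f : Module.Dual (ZMod p) K, f ≠ 0 ∧ ∀ w ∈ W, f w = 0 := by
  let S : Submodule (ZMod p) K := AddSubgroup.toZModSubmodule p W
  have hS : S < ⊤ := by
    rw [lt_top_iff_ne_top]
    intro h
    apply hW
    rw [eq_top_iff]
    intro x _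
    have : x ∈ S := by rw [h]; trivial
    exact this
  obtain ⟨f, hf, hle⟩ := Submodule.exists_le_ker_of_lt_top S hS
  exact ⟨f, hf, fun w hw => hle hw⟩

theorem functional_conj (f g : Module.Dual (ZMod p) K) (hf : f ≠ 0) (hg : g ≠ 0) :
    ∃ c : Kˣ, ∀ x, g x = f (c * x) := by
  let m : K →ₗ[ZMod p] Module.Dual (ZMod p) K :=
    { toFun := fun c => f.comp (LinearMap.mulLeft (ZMod p) c)
      map_add' := fun c d => by
        apply LinearMap.ext
        intro x
        show f ((c + d) * x) = f (c * x) + f (d * x)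
        rw [add_mul, map_add]
      map_smul' := fun r c => by
        apply LinearMap.ext
        intro x
        show f ((r • c) * x) = r • f (c * x)
        rw [smul_mul_assoc, map_smul] }
  have hinj : Function.Injective m := by
    rw [← LinearMap.ker_eq_bot, LinearMap.ker_eq_bot']
    intro c hc
    by_contra hc0
    apply hf
    apply LinearMap.ext
    intro x
    have := LinearMap.congr_fun hc (c⁻¹ * x)
    have h2 : f (c * (c⁻¹ * x)) = 0 := this
    rw [mul_inv_cancel_left₀ hc0] at h2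
    exact h2
  have hsurj : Function.Surjective m :=
    (LinearMap.injective_iff_surjective_of_finrank_eq_finrank
      (Subspace.dual_finrank_eq (K := ZMod p) (V := K)).symm).1 hinj
  obtain ⟨c, hc⟩ := hsurj g
  have hc0 : c ≠ 0 := by
    rintro rfl
    apply hg
    rw [← hc, map_zero]
  exact ⟨Units.mk0 c hc0, fun x => (LinearMap.congr_fun hc x).symm⟩

theorem addOrder (p : ℕ) [hp : Fact p.Prime] [Algebra (ZMod p) K] (w : K) (hw : w ≠ 0) :
    addOrderOf w = p := by
  refine addOrderOf_eq_prime ?_ hw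
  haveI : CharP K p := charP_of_injective_algebraMap (algebraMap (ZMod p) K).injective p
  rw [nsmul_eq_mul, CharP.cast_eq_zero, zero_mul]

theorem exists_int (p : ℕ) [hp : Fact p.Prime] [Algebra (ZMod p) K] (l : Kˣ)
    (h : l ^ (p - 1) = 1) : ∃ n : ℤ, (n : K) = (l : K) := by
  haveI : CharP K p := charP_of_injective_algebraMap (algebraMap (ZMod p) K).injective p
  refine (mem_bot_iff_intCast p K).1 ((Subfield.mem_bot_iff_pow_eq_self K p).2 ?_)
  have h1 : l ^ p = l := by
    have e : p = (p - 1) + 1 := by have := hp.out.one_lt; omega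
    conv_lhs => rw [e]
    rw [pow_succ, h, one_mul]
  rw [← Units.val_pow_eq_pow_val, h1]

include hC

theorem mem_C (hN0 : 0 < N) (x : Kˣ) (hx : x ^ N = 1) : x ∈ C := by
  classical
  have := Fintype.ofFinite Kˣ
  have h1 := IsCyclic.card_pow_eq_one_le (α := Kˣ) (n := N) hN0
  have h2 : (C : Set Kˣ).toFinset ⊆ Finset.univ.filter (fun a => a ^ N = 1) := by
    intro a ha
    rw [Set.mem_toFinset] at ha
    rw [Finset.mem_filter]
    refine ⟨Finset.mem_univ _, ?_⟩
    have h3 : (⟨a, ha⟩ : C) ^ (Nat.card C) = 1 := pow_card_eq_one'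
    rw [hC] at h3
    exact congrArg Subtype.val h3
  have h4 : (C : Set Kˣ).toFinset.card = N := by
    rw [← hC]
    exact (Nat.card_eq_card_toFinset (C : Set Kˣ)).symm
  have h3 := Finset.eq_of_subset_of_card_le h2 (by rw [h4]; exact h1)
  have h5 : x ∈ (C : Set Kˣ).toFinset := by
    rw [h3, Finset.mem_filter]
    exact ⟨Finset.mem_univ _, hx⟩
  rw [Set.mem_toFinset] at h5
  exact h5

include hN hcop

theorem decomp (c : Kˣ) : ∃ (c' : C) (n : ℤ), v c' = (n : K) * c := by
  have hN0 : 0 < N := by rw [← hC]; exact Nat.card_pos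
  let e := (Nat.chineseRemainder hcop 0 1).1
  have he1 : e ≡ 0 [MOD p - 1] := (Nat.chineseRemainder hcop 0 1).2.1
  have he2 : e ≡ 1 [MOD N] := (Nat.chineseRemainder hcop 0 1).2.2
  have h1 : (c ^ e) ^ N = 1 := by
    rw [← pow_mul]
    have h2 : e * N ≡ 0 * N [MOD (p - 1) * N] := Nat.ModEq.mul_right' _ he1
    rw [← hN] at h2
    rw [← pow_mod_natCard c, h2, pow_mod_natCard, Nat.zero_mul, pow_zero]
  have h3 : (c ^ e * c⁻¹) ^ (p - 1) = 1 := by
    rw [mul_pow, ← pow_mul, inv_pow]
    have h2 : e * (p - 1) ≡ 1 * (p - 1) [MOD N * (p - 1)] := Nat.ModEq.mul_right' _ he2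
    rw [Nat.mul_comm N, ← hN] at h2
    rw [← pow_mod_natCard c (e * (p - 1)), h2, pow_mod_natCard, Nat.one_mul, mul_inv_cancel]
  obtain ⟨n, hn⟩ := exists_int p _ h3
  refine ⟨⟨c ^ e, mem_C hC hN0 _ h1⟩, n, ?_⟩
  rw [hn]
  show ((c ^ e : Kˣ) : K) = _
  rw [← Units.val_mul, inv_mul_cancel_right]

/-- transitivity on the points -/
theorem conj_point (W W' : AddSubgroup K) (hW : Nat.card W = p) (hW' : W' ≠ ⊥) :
    ∃ c : C, ∀ w ∈ W, v c * w ∈ W' := by
  have hWb : W ≠ ⊥ := by
    rintro rfl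
    rw [AddSubgroup.card_bot] at hW
    exact hp.out.one_lt.ne hW
  obtain ⟨w₀, hw₀, hw₀'⟩ := exists_ne W hWb
  obtain ⟨w₁, hw₁, hw₁'⟩ := exists_ne W' hW'
  have hWe : W = AddSubgroup.zmultiples w₀ := by
    symm
    refine AddSubgroup.eq_of_le_of_card_ge ?_ ?_
    · rw [AddSubgroup.zmultiples_le]
      exact hw₀
    · rw [Nat.card_zmultiples, addOrder p w₀ hw₀', hW]
  obtain ⟨c', n, hn⟩ := decomp hC hN hcop (Units.mk0 (w₁ / w₀) (div_ne_zero hw₁' hw₀'))
  refine ⟨c', fun w hw => ?_⟩
  rw [hWe, AddSubgroup.mem_zmultiples_iff] at hw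
  obtain ⟨m, rfl⟩ := hw
  rw [hn, Units.val_mk0, mul_smul_comm, mul_assoc, div_mul_cancel₀ _ hw₀', ← zsmul_eq_mul]
  exact W'.zsmul_mem (W'.zsmul_mem hw₁ n) m

/-- transitivity on the hyperplanes -/
theorem conj_hyp (n : ℕ) (hK : Nat.card K = p ^ (n + 1)) (W W' : AddSubgroup K) (hW : W ≠ ⊤)
    (hW' : Nat.card W' = p ^ n) :
    ∃ c : C, ∀ w ∈ W, v c * w ∈ W' := by
  have hW'' : W' ≠ ⊤ := by
    rintro rfl
    rw [AddSubgroup.card_top, hK] at hW'
    have := (Nat.pow_right_injective hp.out.two_le) hW'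
    omega
  obtain ⟨g, hg, hgW⟩ := exists_functional (p := p) W hW
  obtain ⟨f, hf, hfW⟩ := exists_functional (p := p) W' hW''
  obtain ⟨c, hc⟩ := functional_conj f g hf hg
  have hker : W' = (LinearMap.ker f).toAddSubgroup := by
    refine AddSubgroup.eq_of_le_of_card_ge (fun w hw => hfW w hw) ?_
    have h1 := AddSubgroup.card_addSubgroup_dvd_card (LinearMap.ker f).toAddSubgroup
    rw [hK] at h1
    obtain ⟨m, hm, h2⟩ := (Nat.dvd_prime_pow hp.out).1 h1
    rw [h2, hW']
    rcases Nat.lt_or_ge n m with h3 | h3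
    · exfalso
      have h4 : m = n + 1 := by omega
      rw [h4] at h2
      apply hf
      have h6 : (LinearMap.ker f).toAddSubgroup = ⊤ :=
        AddSubgroup.eq_top_of_card_eq _ (by rw [h2, hK])
      apply LinearMap.ext
      intro x
      have : x ∈ (LinearMap.ker f).toAddSubgroup := by rw [h6]; trivial
      exact this
    · exact Nat.pow_le_pow_right hp.out.pos h3
  obtain ⟨c', m, hm⟩ := decomp hC hN hcop c
  refine ⟨c', fun w hw => ?_⟩
  rw [hm, mul_assoc, ← zsmul_eq_mul]
  refine W'.zsmul_mem ?_ m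
  rw [hker]
  show f (c * w) = 0
  rw [← hc]
  exact hgW w hw

/-- irreducibility -/
theorem irred (n : ℕ) (hn : n.Prime) (hK : Nat.card K = p ^ n) (d : C) (hd : d ≠ 1)
    (T : AddSubgroup K) (hT : ∀ t ∈ T, v d * t ∈ T) : T = ⊥ ∨ T = ⊤ := by
  have hfr : Module.finrank (ZMod p) K = n := by
    have h := Module.natCard_eq_pow_finrank (K := ZMod p) (V := K)
    rw [hK, Nat.card_zmod] at h
    exact (Nat.pow_right_injective hp.out.two_le h).symm
  have hsimple := Subalgebra.isSimpleOrder_of_finrank_prime (ZMod p) K (by rw [hfr]; exact hn)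
  rcases hsimple.eq_bot_or_eq_top (Algebra.adjoin (ZMod p) {v d}) with h | h
  · exfalso
    have h1 : v d ∈ (⊥ : Subalgebra (ZMod p) K) := by
      rw [← h]; exact Algebra.subset_adjoin rfl
    obtain ⟨r, hr⟩ := Algebra.mem_bot.1 h1
    have hr0 : r ≠ 0 := by
      rintro rfl
      rw [map_zero] at hr
      exact v_ne_zero d hr.symm
    have h2 : v d ^ (p - 1) = 1 := by
      rw [← hr, ← map_pow, ZMod.pow_card_sub_one_eq_one hr0, map_one]
    have h3 : d ^ (p - 1) = 1 := by
      apply v_inj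
      rw [v_one, ← h2]
      show (((d ^ (p - 1) : C) : Kˣ) : K) = _
      rw [Subgroup.coe_pow, Units.val_pow_eq_pow_val]
      rfl
    have h4 : d ^ N = 1 := by rw [← hC]; exact pow_card_eq_one'
    have h5 := Nat.dvd_gcd (orderOf_dvd_of_pow_eq_one h3) (orderOf_dvd_of_pow_eq_one h4)
    rw [hcop] at h5
    exact hd (orderOf_eq_one_iff.1 (Nat.dvd_one.1 h5))
  · by_cases hTb : T = ⊥
    · left; exact hTb
    right
    obtain ⟨w₀, hw₀, hw₀'⟩ := exists_ne T hTb
    have key : ∀ z ∈ Algebra.adjoin (ZMod p) {v d}, ∀ t ∈ T, z * t ∈ T := by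
      intro z hz
      induction hz using Algebra.adjoin_induction with
      | mem x hx =>
        have : x = v d := hx
        rw [this]; exact hT
      | algebraMap r =>
        intro t ht
        rw [← Algebra.smul_def]
        exact (AddSubgroup.toZModSubmodule p T).smul_mem r ht
      | add x y _ _ h1 h2 =>
        intro t ht
        rw [add_mul]
        exact T.add_mem (h1 t ht) (h2 t ht)
      | mul x y _ _ h1 h2 =>
        intro t ht
        rw [mul_assoc]
        exact h1 _ (h2 t ht)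
    rw [eq_top_iff]
    intro x _
    have h1 := key (x / w₀) (by rw [h]; trivial) w₀ hw₀
    rwa [div_mul_cancel₀ _ hw₀'] at h1

end Field

end H68ICU
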