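import Pool.Agent.H68.ICU.Grp

/-!
The poset of classes of subgroups of `K ⋊ C`.
-/

open CategoryTheory
open H68IC hiding Aff lin vsub tpart eq_vsub conj_tr hsub card_hsub card_vsub mem_vsub mul_a mul_b
  inv_a inv_b card_units classify finrank_eq card_cases exists_functional functional_conj add_conj
  a_of_subConj vsub_subConj exists_half card_aff card_half good_aff
open H68ICG H68ICP

set_option linter.unusedSectionVars false

namespace H68ICU

theorem res_le {P : Type} [PartialOrder P] {d e : ℕ} {D : Set P} (h : Res d D) (hle : d ≤ e) :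
    Res e D := by
  have := h.mono (e - d)
  rwa [Nat.sub_add_cancel hle] at this

section Main

variable {K : Type} [Field K] [Finite K] {p : ℕ} [hp : Fact p.Prime] [Algebra (ZMod p) K]
variable {C : Subgroup Kˣ} {N n : ℕ} (hC : Nat.card C = N) (hN : Nat.card Kˣ = (p - 1) * N)
  (hcop : (p - 1).Coprime N) (hpN : p.Coprime N) (hn : n.Prime) (hK : Nat.card K = p ^ n)

theorem tpart_bot {L H : Subgroup (AffC C)} (h : SubConj L H) (hH : tpart H = ⊥) :
    tpart L = ⊥ := by
  rw [eq_bot_iff]
  intro w hw
  rw [subConj_iff] at h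
  obtain ⟨g, hg⟩ := h
  have h1 := hg _ hw
  rw [conj_tr] at h1
  have h2 : v g.a⁻¹ * w ∈ tpart H := h1
  rw [hH, AddSubgroup.mem_bot] at h2
  rcases mul_eq_zero.1 h2 with h3 | h3
  · exact absurd h3 (v_ne_zero _)
  · exact h3

theorem card_dvd_of_bot {H : Subgroup (AffC C)} (hH : tpart H = ⊥) :
    Nat.card H ∣ Nat.card C := by
  refine Subgroup.card_dvd_of_injective ((lin (C := C)).comp H.subtype) ?_
  rw [injective_iff_map_eq_one]
  intro x hx
  have hxa : x.1.a = 1 := hx
  have h1 : (⟨1, x.1.b⟩ : AffC C) = x.1 := AffC.ext hxa.symm rfl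
  have h2 : x.1.b ∈ tpart H := by
    show (⟨1, x.1.b⟩ : AffC C) ∈ H
    rw [h1]; exact x.2
  rw [hH, AddSubgroup.mem_bot] at h2
  exact Subtype.ext (AffC.ext hxa h2)

theorem ne_bot_of {H : Subgroup (AffC C)} (h : ∃ x ∈ H, x.a ≠ 1) : H ≠ ⊥ := by
  rintro rfl
  obtain ⟨x, hx, hxa⟩ := h
  rw [Subgroup.mem_bot] at hx
  exact hxa (by rw [hx]; rfl)

/-- the subgroups without translations -/
theorem claim_D (m : ℕ) : ∀ H : Subgroup (AffC C), Nat.card H = m → tpart H = ⊥ → H ≠ ⊥ →
    Res (ArithmeticFunction.cardFactors m - 1) (Set.Iio (SubCl.mk H)) := by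
  induction m using Nat.strong_induction_on with
  | _ m ih =>
    intro H hm hH hne
    have h1 : 1 < Nat.card H := (Subgroup.one_lt_card_iff_ne_bot H).2 hne
    refine res_Iio _ _ (SubCl.mk ⊥) ?_ ?_
    · rw [mk_lt_mk]
      exact ⟨SubConj.bot _, by rw [Subgroup.card_bot]; exact h1⟩
    · intro y hy hy0
      induction y using Quotient.inductionOn with
      | h L =>
        change SubCl.mk L < SubCl.mk H at hy
        change ¬ SubCl.mk L ≤ SubCl.mk ⊥ at hy0
        rw [mk_lt_mk] at hy
        have hL : L ≠ ⊥ := by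
          rintro rfl
          exact hy0 le_rfl
        have h2 : 1 < Nat.card L := (Subgroup.one_lt_card_iff_ne_bot L).2 hL
        refine ⟨ArithmeticFunction.cardFactors (Nat.card L) - 1, ?_,
          ih (Nat.card L) (by rw [← hm]; exact hy.2) L rfl (tpart_bot hy.1 hH) hL⟩
        have h3 := ArithmeticFunction.cardFactors_pos_iff_one_lt.2 h2
        have h4 := cardFactors_lt hy.1.card_dvd (by omega) hy.2
        rw [← hm]
        omega

theorem vsub_subConj {W W' : AddSubgroup K} (h : ∃ c : C, ∀ w ∈ W, v c * w ∈ W') :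
    SubConj (vsub C W) (vsub C W') := by
  obtain ⟨c, hc⟩ := h
  rw [subConj_iff]
  refine ⟨⟨c⁻¹, 0⟩, ?_⟩
  rintro x ⟨hx1, hx2⟩
  have hx : x = ⟨1, x.b⟩ := AffC.ext hx1 rfl
  rw [hx, conj_tr]
  refine ⟨rfl, ?_⟩
  show v (c⁻¹)⁻¹ * x.b ∈ W'
  rw [inv_inv]
  exact hc _ hx2

include hK in
theorem finrank_eq : Module.finrank (ZMod p) K = n := by
  have h := Module.natCard_eq_pow_finrank (K := ZMod p) (V := K)
  rw [hK, Nat.card_zmod] at h
  exact (Nat.pow_right_injective hp.out.two_le h).symm

include hK in
theorem card_pow (W : AddSubgroup K) : ∃ k ≤ n, Nat.card W = p ^ k := by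
  have h := AddSubgroup.card_addSubgroup_dvd_card W
  rw [hK] at h
  obtain ⟨m, hm, h2⟩ := (Nat.dvd_prime_pow hp.out).1 h
  exact ⟨m, hm, h2⟩

include hC hN hcop hK in
/-- the proper subgroups of the group of translations -/
theorem claim_V (k : ℕ) : k < n → ∀ W : AddSubgroup K, Nat.card W = p ^ k →
    Res (k - 2) (Set.Iio (SubCl.mk (vsub C W))) := by
  have hp1 := hp.out.one_lt
  induction k using Nat.strong_induction_on with
  | _ k ih =>
    intro hk W hW
    have key : ∀ L : Subgroup (AffC C), SubConj L (vsub C W) → Nat.card L < p ^ k →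
        ∃ j, j < k ∧ L = vsub C (tpart L) ∧ Nat.card (tpart L) = p ^ j := by
      intro L hL hlt
      have h1 := eq_vsub (a_of_subConj hL)
      obtain ⟨j, _, hj⟩ := card_pow hK (tpart L)
      refine ⟨j, ?_, h1, hj⟩
      rw [h1, card_vsub, hj] at hlt
      exact (Nat.pow_lt_pow_iff_right hp1).1 hlt
    have hcW : Nat.card (vsub C W) = p ^ k := by rw [card_vsub, hW]
    rcases Nat.eq_zero_or_pos k with hk0 | hk0
    · have e : Set.Iio (SubCl.mk (vsub C W)) = ∅ := by
        rw [Set.eq_empty_iff_forall_notMem]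
        intro y
        induction y using Quotient.inductionOn with
        | h L =>
          change ¬ SubCl.mk L < SubCl.mk (vsub C W)
          rw [mk_lt_mk, hcW]
          rintro ⟨h1, h2⟩
          obtain ⟨j, hj, _⟩ := key L h1 h2
          omega
      rw [e]
      exact Res.empty _
    · have hWb : W ≠ ⊥ := by
        rintro rfl
        rw [AddSubgroup.card_bot] at hW
        have := Nat.one_lt_pow hk0.ne' hp1
        omega
      by_cases hk1 : k = 1
      · refine res_Iio _ _ (SubCl.mk ⊥) ?_ ?_
        · rw [mk_lt_mk, hcW, Subgroup.card_bot]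
          exact ⟨SubConj.bot _, Nat.one_lt_pow hk0.ne' hp1⟩
        · intro y hy hy0
          exfalso
          induction y using Quotient.inductionOn with
          | h L =>
            change SubCl.mk L < SubCl.mk (vsub C W) at hy
            change ¬ SubCl.mk L ≤ SubCl.mk ⊥ at hy0
            rw [mk_lt_mk, hcW] at hy
            obtain ⟨j, hj, h1, h2⟩ := key L hy.1 hy.2
            have hj0 : j = 0 := by omega
            have h3 : Nat.card L = 1 := by rw [h1, card_vsub, h2, hj0, pow_zero]
            rw [Subgroup.card_eq_one] at h3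
            apply hy0
            rw [h3]
      · let U : AddSubgroup K := AddSubgroup.zmultiples 1
        have hU : Nat.card U = p := by
          rw [Nat.card_zmultiples, addOrder p 1 one_ne_zero]
        have hUb : U ≠ ⊥ := by
          intro h
          rw [h, AddSubgroup.card_bot] at hU
          omega
        refine res_Iio _ _ (SubCl.mk (vsub C U)) ?_ ?_
        · rw [mk_lt_mk, hcW, card_vsub, hU]
          refine ⟨vsub_subConj (conj_point hC hN hcop U W hU hWb), ?_⟩
          calc p = p ^ 1 := (pow_one p).symm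
            _ < p ^ k := Nat.pow_lt_pow_right hp1 (by omega)
        · intro y hy hy0
          induction y using Quotient.inductionOn with
          | h L =>
            change SubCl.mk L < SubCl.mk (vsub C W) at hy
            change ¬ SubCl.mk L ≤ SubCl.mk (vsub C U) at hy0
            change ∃ k', k' + 1 ≤ k - 2 ∧ Res k' (Set.Iio (SubCl.mk L))
            rw [mk_lt_mk, hcW] at hy
            obtain ⟨j, hj, h1, h2⟩ := key L hy.1 hy.2
            have hj2 : 2 ≤ j := by
              by_contra hcon
              apply hy0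
              rw [SubCl.mk_le_mk]
              have hj' : j = 0 ∨ j = 1 := by omega
              rcases hj' with hj' | hj'
              · have h3 : Nat.card L = 1 := by rw [h1, card_vsub, h2, hj', pow_zero]
                rw [Subgroup.card_eq_one] at h3
                rw [h3]
                exact SubConj.bot _
              · rw [h1]
                exact vsub_subConj (conj_point hC hN hcop _ U (by rw [h2, hj', pow_one]) hUb)
            have h3 := ih j hj (by omega) (tpart L) h2
            rw [← h1] at h3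
            exact ⟨j - 2, by omega, h3⟩

include hC hN hcop hK hn in
/-- the group of translations -/
theorem claim_T : Res 0 (Set.Iio (SubCl.mk (vsub C (⊤ : AddSubgroup K)))) := by
  have hp1 := hp.out.one_lt
  have hn1 := hn.one_lt
  obtain ⟨m, rfl⟩ : ∃ m, n = m + 1 := ⟨n - 1, by omega⟩
  obtain ⟨Y, hY⟩ : ∃ Y : AddSubgroup K, Nat.card Y = p ^ m := by
    obtain ⟨f, hf, _⟩ := exists_functional (p := p) (⊥ : AddSubgroup K) (by
      intro h0
      have : Nat.card (⊥ : AddSubgroup K) = Nat.card (⊤ : AddSubgroup K) := by rw [h0]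
      rw [AddSubgroup.card_bot, AddSubgroup.card_top, hK] at this
      have h1 : 1 < p ^ (m + 1) := Nat.one_lt_pow (by omega) hp1
      omega)
    refine ⟨(LinearMap.ker f).toAddSubgroup, ?_⟩
    have h1 := Module.Dual.finrank_ker_add_one_of_ne_zero hf
    rw [finrank_eq hK] at h1
    have h2 := Module.natCard_eq_pow_finrank (K := ZMod p) (V := LinearMap.ker f)
    have h3 : Module.finrank (ZMod p) (LinearMap.ker f) = m := by omega
    rw [h3, Nat.card_zmod] at h2
    exact h2
  have hcT : Nat.card (vsub C (⊤ : AddSubgroup K)) = p ^ (m + 1) := by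
    rw [card_vsub, AddSubgroup.card_top, hK]
  refine res_Iio _ _ (SubCl.mk (vsub C Y)) ?_ ?_
  · rw [mk_lt_mk, hcT, card_vsub, hY]
    exact ⟨SubConj.of_le (fun x hx => ⟨hx.1, trivial⟩), Nat.pow_lt_pow_right hp1 (by omega)⟩
  · intro y hy hy0
    exfalso
    induction y using Quotient.inductionOn with
    | h L =>
      change SubCl.mk L < SubCl.mk (vsub C ⊤) at hy
      change ¬ SubCl.mk L ≤ SubCl.mk (vsub C Y) at hy0
      rw [mk_lt_mk, hcT] at hy
      have h1 := eq_vsub (a_of_subConj hy.1)
      have hT : tpart L ≠ ⊤ := by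
        intro h
        rw [h] at h1
        rw [h1, hcT] at hy
        exact lt_irrefl _ hy.2
      apply hy0
      rw [SubCl.mk_le_mk, h1]
      exact vsub_subConj (conj_hyp hC hN hcop m hK _ Y hT hY)

include hC hN hcop hn hK in
theorem tpart_irred {H : Subgroup (AffC C)} (h : ∃ x ∈ H, x.a ≠ 1) :
    tpart H = ⊥ ∨ tpart H = ⊤ := by
  obtain ⟨x, hx, hxa⟩ := h
  refine irred hC hN hcop n hn hK x.a hxa (tpart H) ?_
  intro t ht
  have h1 := H.mul_mem (H.mul_mem hx ht) (H.inv_mem hx)
  have h2 := conj_tr (x⁻¹) t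
  rw [inv_inv] at h2
  rw [h2] at h1
  have h3 : v ((x⁻¹).a)⁻¹ = v x.a := by rw [inv_a, inv_inv]
  rw [h3] at h1
  exact h1

include hC hN hcop hpN hn hK in
/-- the subgroups which contain all translations -/
theorem claim_VD (m : ℕ) : ∀ H : Subgroup (AffC C), Nat.card H = m → tpart H = ⊤ →
    Res (ArithmeticFunction.cardFactors m - n) (Set.Iio (SubCl.mk H)) := by
  have hp1 := hp.out.one_lt
  induction m using Nat.strong_induction_on with
  | _ m ih =>
    intro H hm hH
    have hle : ∀ L : Subgroup (AffC C), tpart L = ⊤ → vsub C ⊤ ≤ L := by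
      rintro L hL x ⟨hx, _⟩
      have h1 : (⟨1, x.b⟩ : AffC C) = x := AffC.ext hx.symm rfl
      have h2 : x.b ∈ tpart L := by rw [hL]; trivial
      rw [← h1]; exact h2
    have hcT : Nat.card (vsub C (⊤ : AddSubgroup K)) = p ^ n := by
      rw [card_vsub, AddSubgroup.card_top, hK]
    have hdvd : ∀ L : Subgroup (AffC C), tpart L = ⊤ → p ^ n ∣ Nat.card L := by
      intro L hL
      rw [← hcT]
      exact Subgroup.card_dvd_of_le (hle L hL)
    have hΩ : ArithmeticFunction.cardFactors (p ^ n) = n :=
      ArithmeticFunction.cardFactors_apply_prime_pow hp.out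
    by_cases hT : ∃ x ∈ H, x.a ≠ 1
    · have hlt : Nat.card (vsub C (⊤ : AddSubgroup K)) < Nat.card H := by
        by_contra hcon
        have h1 := Subgroup.eq_of_le_of_card_ge (hle H hH) (not_lt.1 hcon)
        obtain ⟨x, hx, hxa⟩ := hT
        rw [← h1] at hx
        exact hxa hx.1
      refine res_Iio _ _ (SubCl.mk (vsub C ⊤)) ?_ ?_
      · rw [mk_lt_mk]
        exact ⟨SubConj.of_le (hle H hH), hlt⟩
      · intro y hy hy0
        induction y using Quotient.inductionOn with
        | h L =>
          change SubCl.mk L < SubCl.mk H at hy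
          change ¬ SubCl.mk L ≤ SubCl.mk (vsub C ⊤) at hy0
          change ∃ k', k' + 1 ≤ ArithmeticFunction.cardFactors m - n ∧
            Res k' (Set.Iio (SubCl.mk L))
          rw [mk_lt_mk] at hy
          have hLa : ∃ x ∈ L, x.a ≠ 1 := by
            by_contra hcon
            push Not at hcon
            apply hy0
            rw [SubCl.mk_le_mk]
            exact SubConj.of_le (fun x hx => ⟨hcon x hx, trivial⟩)
          have hL := ne_bot_of hLa
          have h2 : 1 < Nat.card L := (Subgroup.one_lt_card_iff_ne_bot L).2 hL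
          have h3 := ArithmeticFunction.cardFactors_pos_iff_one_lt.2 h2
          have hH0 : Nat.card H ≠ 0 := Nat.card_pos.ne'
          rcases tpart_irred hC hN hcop hn hK hLa with hb | ht
          · refine ⟨ArithmeticFunction.cardFactors (Nat.card L) - 1, ?_,
              claim_D (Nat.card L) L rfl hb hL⟩
            have h4 : (p ^ n).Coprime (Nat.card L) := by
              refine Nat.Coprime.coprime_dvd_right ?_ (Nat.Coprime.pow_left n hpN)
              rw [← hC]
              exact card_dvd_of_bot hb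
            have h5 : p ^ n * Nat.card L ∣ Nat.card H :=
              Nat.Coprime.mul_dvd_of_dvd_of_dvd h4 (hdvd H hH) hy.1.card_dvd
            have h6 := cardFactors_le h5 hH0
            rw [ArithmeticFunction.cardFactors_mul (pow_pos hp.out.pos n).ne' (by omega), hΩ,
              hm] at h6
            omega
          · refine ⟨ArithmeticFunction.cardFactors (Nat.card L) - n, ?_,
              ih (Nat.card L) (by rw [← hm]; exact hy.2) L rfl ht⟩
            have h4 := cardFactors_lt hy.1.card_dvd hH0 hy.2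
            have h5 := cardFactors_le (hdvd L ht) (by omega)
            rw [hΩ] at h5
            rw [hm] at h4
            omega
    · push Not at hT
      have h1 := eq_vsub hT
      rw [hH] at h1
      rw [h1]
      exact res_le (claim_T hC hN hcop hn hK) (Nat.zero_le _)

include hC hK in
theorem card_aff : Nat.card (AffC C) = p ^ n * N := by
  have e : AffC C ≃ K × C := ⟨fun x => (x.b, x.a), fun x => ⟨x.2, x.1⟩, fun _ => rfl, fun _ => rfl⟩
  rw [Nat.card_congr e, Nat.card_prod, hC, hK]

include hC hN hcop hpN hn hK in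
theorem goodN_aff (hn5 : 5 ≤ n) (hΩN : 2 * ArithmeticFunction.cardFactors N < n) :
    GoodN (n - 3) (SubCl (AffC C)) := by
  intro x
  have hN0 : N ≠ 0 := by rw [← hC]; exact Nat.card_pos.ne'
  induction x using Quotient.inductionOn with
  | h H =>
    change Res (n - 3) (Set.Iio (SubCl.mk H))
    by_cases hT : ∃ x ∈ H, x.a ≠ 1
    · rcases tpart_irred hC hN hcop hn hK hT with hb | ht
      · refine res_le (claim_D (Nat.card H) H rfl hb (ne_bot_of hT)) ?_
        have h1 := card_dvd_of_bot hb
        rw [hC] at h1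
        have h2 := cardFactors_le h1 hN0
        omega
      · refine res_le (claim_VD hC hN hcop hpN hn hK (Nat.card H) H rfl ht) ?_
        have h1 := Subgroup.card_subgroup_dvd_card H
        rw [card_aff hC hK] at h1
        have h2 := cardFactors_le h1 (Nat.mul_ne_zero (pow_pos hp.out.pos n).ne' hN0)
        rw [ArithmeticFunction.cardFactors_mul (pow_pos hp.out.pos n).ne' hN0,
          ArithmeticFunction.cardFactors_apply_prime_pow hp.out] at h2
        omega
    · push Not at hT
      have h1 := eq_vsub hT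
      obtain ⟨k, hk, hk2⟩ := card_pow hK (tpart H)
      rcases Nat.lt_or_ge k n with h3 | h3
      · rw [h1]
        exact res_le (claim_V hC hN hcop hK k h3 (tpart H) hk2) (by omega)
      · have h4 : k = n := le_antisymm hk h3
        have h5 : tpart H = ⊤ := AddSubgroup.eq_top_of_card_eq _ (by rw [hk2, h4, hK])
        rw [h5] at h1
        rw [h1]
        exact res_le (claim_T hC hN hcop hn hK) (Nat.zero_le _)

include hK in
theorem irr_aff : Irr (AffC C) n := by
  let b := Module.finBasisOfFinrankEq (ZMod p) K (finrank_eq hK)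
  let T : Finset (AffC C) := Finset.univ.map ⟨fun i : Fin n => (⟨1, b i⟩ : AffC C),
    fun i j hij => b.injective (congrArg AffC.b hij)⟩
  have hT : T.card = n := by rw [Finset.card_map, Finset.card_univ, Fintype.card_fin]
  refine ⟨T, hT, ?_⟩
  intro t ht hcl
  obtain ⟨i, _, rfl⟩ := Finset.mem_map.1 ht
  have h1 : Subgroup.closure {x : AffC C | x ∈ T ∧ x ≠ (⟨1, b i⟩ : AffC C)} ≤
      vsub C (LinearMap.ker (b.coord i)).toAddSubgroup := by
    rw [Subgroup.closure_le]
    rintro y ⟨hy, hne⟩
    obtain ⟨j, _, rfl⟩ := Finset.mem_map.1 hy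
    refine ⟨rfl, ?_⟩
    show b.coord i (b j) = 0
    rw [Module.Basis.coord_apply, Module.Basis.repr_self, Finsupp.single_apply, if_neg]
    rintro rfl
    exact hne rfl
  have h2 := (h1 hcl).2
  have h3 : b.coord i (b i) = 0 := h2
  rw [Module.Basis.coord_apply, Module.Basis.repr_self, Finsupp.single_apply, if_pos rfl] at h3
  exact one_ne_zero h3

end Main

/-- For a prime `p` and a prime `n ≥ p ^ 2`, `n ≥ 5`. -/
theorem exists_aff (p n : ℕ) (hp : p.Prime) (hn : n.Prime) (hn5 : 5 ≤ n) (hpn : p ^ 2 ≤ n) :
    ∃ (G : Type) (_ : Group G) (_ : Finite G), Nat.card G = p ^ n * NN p n ∧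
      GoodN (n - 3) (SubCl G) ∧ Irr G n := by
  haveI : Fact p.Prime := ⟨hp⟩
  have hp1 := hp.one_lt
  have hpn' : p < n := by nlinarith
  have hK : Nat.card (GaloisField p n) = p ^ n := GaloisField.card p n hn.ne_zero
  have hN : Nat.card (GaloisField p n)ˣ = (p - 1) * NN p n := by
    rw [Nat.card_units, hK, ← NN_mul p n hp1.le, Nat.add_sub_cancel, Nat.mul_comm]
  obtain ⟨g, hg⟩ := IsCyclic.exists_generator (α := (GaloisField p n)ˣ)
  have hg' := orderOf_eq_card_of_forall_mem_zpowers hg
  have hC : Nat.card (Subgroup.zpowers (g ^ (p - 1))) = NN p n := by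
    rw [Nat.card_zpowers, orderOf_pow_of_dvd (by omega) (by rw [hg', hN]; exact ⟨_, rfl⟩), hg', hN,
      Nat.mul_div_cancel_left _ (by omega)]
  have hcop : (p - 1).Coprime (NN p n) := cop_of_lt hp hn hpn' (by omega) (by omega)
  have hpN : p.Coprime (NN p n) := cop_of_lt hp hn hpn' hp.pos hpn'
  exact ⟨AffC (Subgroup.zpowers (g ^ (p - 1))), inferInstance, inferInstance, card_aff hC hK,
    goodN_aff hC hN hcop hpN hn hK hn5 (cardFactors_NN hp hn hpn), irr_aff hK⟩

/-- a group of this kind of order coprime to a given number -/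
theorem exists_coprime (M : ℕ) (hM : 0 < M) : ∃ (G : Type) (_ : Group G) (_ : Finite G) (n : ℕ),
    5 ≤ n ∧ M.Coprime (Nat.card G) ∧ GoodN (n - 3) (SubCl G) ∧ Irr G n := by
  obtain ⟨p, hpM, hp⟩ := Nat.exists_infinite_primes (M + 1)
  obtain ⟨n, hnM, hn⟩ := Nat.exists_infinite_primes (M + p ^ 2 + 5)
  obtain ⟨H, _, _, k1, k2, k3⟩ := exists_aff p n hp hn (by omega) (by omega)
  have hp1 := hp.one_lt
  refine ⟨H, inferInstance, inferInstance, n, by omega, ?_, k2, k3⟩
  rw [k1]
  refine Nat.Coprime.mul_right (Nat.Coprime.pow_right n ?_)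
    (cop_of_lt hp hn (by nlinarith) hM (by omega))
  rw [Nat.coprime_comm, Nat.Prime.coprime_iff_not_dvd hp]
  intro hd
  have := Nat.le_of_dvd hM hd
  omega

/-- products of these groups -/
theorem exists_gap (M : ℕ) (hM : 0 < M) (m : ℕ) :
    ∃ (G : Type) (_ : Group G) (_ : Finite G) (a : ℕ),
      M.Coprime (Nat.card G) ∧ GoodN a (SubCl G) ∧ Irr G (a + 1 + 2 * (m + 1)) := by
  induction m with
  | zero =>
    obtain ⟨G, _, _, n, h1, h2, h3, h4⟩ := exists_coprime M hM
    refine ⟨G, inferInstance, inferInstance, n - 3, h2, h3, ?_⟩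
    have e : n - 3 + 1 + 2 * (0 + 1) = n := by omega
    rw [e]
    exact h4
  | succ m ih =>
    obtain ⟨G, _, _, a, h0, h1, h2⟩ := ih
    obtain ⟨H, _, _, n, k0, k1, k2, k3⟩ := exists_coprime (M * Nat.card G)
      (Nat.mul_pos hM Nat.card_pos)
    have hc : (Nat.card G).Coprime (Nat.card H) := Nat.Coprime.coprime_mul_left k1
    have hM' : M.Coprime (Nat.card H) := Nat.Coprime.coprime_mul_right k1
    obtain ⟨m1, m2⟩ := step hc h1 k2 h2 k3
    refine ⟨G × H, inferInstance, inferInstance, _, ?_, m1, ?_⟩
    · rw [Nat.card_prod]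
      exact Nat.Coprime.mul_right h0 hM'
    · have e : a + 1 + 2 * (m + 1) + n = a + (n - 3) + 1 + 1 + 2 * (m + 1 + 1) := by omega
      rw [← e]
      exact m2

end H68ICU
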