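import Pool.Agent.H68.ICP.Main

/-!
Adding elements one at a time to a down-set.
-/

open H68IC H68ICG

namespace H68ICU

theorem res_of {P : Type} [PartialOrder P] [Finite P] (h : ℕ) (D₀ : Set P) (h0 : Res h D₀)
    (n : ℕ) : ∀ D : Set P, (D \ D₀).ncard = n → IsLowerSet D → D₀ ⊆ D →
      (∀ x ∈ D, x ∉ D₀ → ∃ k, k + 1 ≤ h ∧ Res k (Set.Iio x)) → Res h D := by
  induction n with
  | zero =>
    intro D hn _ hsub _
    rw [Set.ncard_eq_zero (Set.toFinite _), Set.diff_eq_empty] at hn
    rw [Set.Subset.antisymm hn hsub]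
    exact h0
  | succ n ih =>
    intro D hn hD hsub hx
    have hne : (D \ D₀).Nonempty := by
      rw [← Set.ncard_pos (Set.toFinite _)]
      omega
    obtain ⟨x, hxm⟩ := (Set.toFinite (D \ D₀)).exists_maximal hne
    have hxD : x ∈ D := hxm.prop.1
    have hxD₀ : x ∉ D₀ := hxm.prop.2
    have hmax : ∀ y ∈ D, x ≤ y → y = x := by
      intro y hy hxy
      have hy0 : y ∉ D₀ := fun h => hxD₀ (h0.lower hxy h)
      exact le_antisymm (hxm.le_of_ge ⟨hy, hy0⟩ hxy) hxy
    have hD' : IsLowerSet (D \ {x}) := by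
      rintro a b hab ⟨ha, hne⟩
      refine ⟨hD hab ha, ?_⟩
      rintro rfl
      exact hne (hmax a ha hab)
    have e1 : D = (D \ {x}) ∪ Set.Iic x := by
      ext y
      constructor
      · intro hy
        by_cases hyx : y = x
        · right; rw [hyx]; exact le_rfl
        · left; exact ⟨hy, hyx⟩
      · rintro (hy | hy)
        · exact hy.1
        · exact hD hy hxD
    have e2 : (D \ {x}) ∩ Set.Iic x = Set.Iio x := by
      ext y
      constructor
      · rintro ⟨⟨_, h1⟩, h2⟩
        exact lt_of_le_of_ne h2 h1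
      · intro hy
        exact ⟨⟨hD (le_of_lt hy) hxD, ne_of_lt hy⟩, le_of_lt hy⟩
    obtain ⟨k, hk, hr⟩ := hx x hxD hxD₀
    obtain ⟨h', rfl⟩ : ∃ h', h = h' + 1 := ⟨h - 1, by omega⟩
    have r1 : Res (h' + 1) (D \ {x}) := by
      refine ih (D \ {x}) ?_ hD' ?_ ?_
      · have e3 : (D \ {x}) \ D₀ = (D \ D₀) \ {x} := by
          ext y
          simp only [Set.mem_diff, Set.mem_singleton_iff]
          tauto
        rw [e3, Set.ncard_diff_singleton_of_mem hxm.prop, hn]
        rfl
      · intro y hy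
        exact ⟨hsub hy, fun h => hxD₀ (by rw [← show y = x from h]; exact hy)⟩
      · intro y hy hy0
        exact hx y hy.1 hy0
    rw [e1]
    refine Res.union h' _ _ r1 (Res.principal _ x) ?_
    rw [e2]
    have := hr.mono (h' - k)
    rwa [Nat.sub_add_cancel (by omega)] at this

/-- the form in which the lemma is used -/
theorem res_Iio {P : Type} [PartialOrder P] [Finite P] (h : ℕ) (x x₀ : P) (h0 : x₀ < x)
    (hx : ∀ y, y < x → ¬ y ≤ x₀ → ∃ k, k + 1 ≤ h ∧ Res k (Set.Iio y)) : Res h (Set.Iio x) :=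
  res_of h (Set.Iic x₀) (Res.principal h x₀) _ (Set.Iio x) rfl (isLowerSet_Iio x)
    (fun _ hy => lt_of_le_of_lt hy h0) (fun y hy hy0 => hx y hy hy0)

end H68ICU
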